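import Pool.Agent.GSH42.Rel
import Pool.Agent.GSH.S4
import Pool.Agent.GSH.NPMain

/-!
# Automata with small strong components
-/

set_option autoImplicit false

namespace Pool.Agent.GSH42

open Pool.Agent.GSH

/-- all languages recognised by the group `G` over the alphabet `A` have height at most `1` -/
def Low (A G : Type) [Group G] : Prop :=
  ∀ (f : A → G) (x : G), Ht 1 {w : List A | (w.map f).prod = x}

theorem low_S4 {A : Type} [Finite A] : Low A (Equiv.Perm (Fin 4)) := by
  intro f x
  have := S4.main_S4 (ι := Unit) (fun _ => MonoidHom.id (Equiv.Perm (Fin 4)))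
    (fun g hg => hg ()) f {x}
  simpa using this

theorem flatten_single {A : Type} (w : List A) : (w.map (fun a => [a])).flatten = w := by
  induction w with
  | nil => rfl
  | cons a w ih => rw [List.map_cons, List.flatten_cons, ih]; rfl

theorem low_nil {A : Type} [Finite A] {G : Type} [Group G] [Finite G] [Group.IsNilpotent G] :
    Low A G := by
  classical
  intro f x
  have h1 := NP.nil_main (A := A) (K := {u : List A | u.length = 1})
    (by
      intro u hu v huv
      have hu' : u.length = 1 := hu
      have huv' : (u ++ v).length = 1 := huv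
      rw [List.length_append, hu'] at huv'
      exact List.length_eq_zero_iff.1 (by omega))
    (by intro h; exact absurd (show ([] : List A).length = 1 from h) (by simp))
    (fun u => (u.map f).prod)
    (by
      intro g
      have e : {u : List A | u ∈ {u : List A | u.length = 1} ∧ (u.map f).prod = g} =
          ⋃ a : A, {w | f a = g ∧ w ∈ ({[a]} : Set (List A))} := by
        ext u
        rw [Set.mem_iUnion]
        constructor
        · rintro ⟨h1, h2⟩
          obtain ⟨a, rfl⟩ := List.length_eq_one_iff.1 (show u.length = 1 from h1)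
          exact ⟨a, by simpa using h2, rfl⟩
        · rintro ⟨a, h1, rfl⟩
          exact ⟨rfl, by simpa using h1⟩
      rw [e]
      exact Ht.iUnion fun a => Ht.prop _ (Ht.letter 0 a)) {x}
  have e : {w : List A | (w.map f).prod = x} =
      {w : List A | ∃ l : List (List A), (∀ u ∈ l, u ∈ {u : List A | u.length = 1}) ∧
        l.flatten = w ∧ (l.map (fun u => (u.map f).prod)).prod ∈ ({x} : Set G)} := by
    ext w
    constructor
    · intro h
      refine ⟨w.map (fun a => [a]), ?_, ?_, ?_⟩
      · intro u hu
        obtain ⟨a, _, rfl⟩ := List.mem_map.1 hu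
        rfl
      · exact flatten_single w
      · have h' : (w.map f).prod = x := h
        rw [List.map_map, Set.mem_singleton_iff, ← h']
        congr 1
        apply List.map_congr_left
        intro a _
        simp
    · rintro ⟨l, _, rfl, h2⟩
      have h2' : (l.map (fun u => (u.map f).prod)).prod = x := h2
      show (l.flatten.map f).prod = x
      rw [← h2']
      clear h2 h2'
      rename_i h3
      clear h3
      induction l with
      | nil => simp
      | cons u l ih => rw [List.flatten_cons, List.map_append, List.prod_append, ih]; simp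
  rw [e]
  exact h1

theorem low_of_injective {A G H : Type} [Group G] [Group H] (φ : G →* H)
    (hφ : Function.Injective φ) (h : Low A H) : Low A G := by
  intro f x
  have := h (fun a => φ (f a)) (φ x)
  have e : {w : List A | (w.map f).prod = x} = {w | (w.map (fun a => φ (f a))).prod = φ x} := by
    ext w
    show _ = _ ↔ _ = _
    rw [← hφ.eq_iff, map_list_prod, List.map_map]
    rfl
  rw [e]
  exact this

theorem low_pi {A ι : Type} [Finite ι] {G : ι → Type} [∀ i, Group (G i)]
    (h : ∀ i, Low A (G i)) : Low A (∀ i, G i) := by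
  intro f x
  have e : {w : List A | (w.map f).prod = x} =
      ⋂ i, {w : List A | (w.map (fun a => f a i)).prod = x i} := by
    ext w
    rw [Set.mem_iInter]
    have key : ∀ i, (w.map f).prod i = (w.map (fun a => f a i)).prod := by
      intro i
      induction w with
      | nil => simp
      | cons a w ih => rw [List.map_cons, List.prod_cons, List.map_cons, List.prod_cons, ← ih]; rfl
    constructor
    · intro h i
      have h' : (w.map f).prod = x := h
      show _ = _
      rw [← key, h']
    · intro h
      show (w.map f).prod = x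
      funext i
      rw [key]
      exact h i
  rw [e]
  exact Ht.iInter fun i => h i _ _

/-- the Malcev product with aperiodic monoids -/
theorem low_malcev {A : Type} [Finite A] {M : Type} [Monoid M] [Finite M] {G : Type} [Group G]
    [Finite G] (hG : Low A G) (f : A → M) (g : A → G)
    (h : ∀ u : List A, (u.map g).prod = 1 →
      ∃ k, (u.map f).prod ^ (k + 1) = (u.map f).prod ^ k) (T : Set M) :
    Ht 1 {w : List A | (w.map f).prod ∈ T} := by
  classical
  let F : FreeMonoid A →* M × G := FreeMonoid.lift (fun a => (f a, g a))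
  have hF : ∀ w : List A, F (FreeMonoid.ofList w) = ((w.map f).prod, (w.map g).prod) := by
    intro w
    induction w with
    | nil => exact map_one F
    | cons a w ih =>
      rw [FreeMonoid.ofList_cons, map_mul, ih]
      simp [F, Prod.mk_mul_mk]
  let M' := MonoidHom.mrange F
  let ρ : M' →* G := (MonoidHom.snd M G).comp M'.subtype
  let f' : A → M' := fun a => ⟨(f a, g a), ⟨FreeMonoid.of a, by simp [F]⟩⟩
  have hf' : ∀ w : List A, ((w.map f').prod : M × G) = ((w.map f).prod, (w.map g).prod) := by
    intro w
    induction w with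
    | nil => rfl
    | cons a w ih =>
      rw [List.map_cons, List.prod_cons, Submonoid.coe_mul, ih]
      simp [f', Prod.mk_mul_mk]
  have hap : ∀ m : M', ρ m * ρ m = ρ m → ∃ k, m ^ (k + 1) = m ^ k := by
    rintro ⟨_, ⟨u, rfl⟩⟩ hm
    have hm1 : ρ ⟨F u, ⟨u, rfl⟩⟩ = 1 := mul_eq_left.1 hm
    have hu := hF (FreeMonoid.toList u)
    rw [FreeMonoid.ofList_toList] at hu
    have hm2 : ((FreeMonoid.toList u).map g).prod = 1 := by
      have : ρ ⟨F u, ⟨u, rfl⟩⟩ = (F u).2 := rfl
      rw [this, hu] at hm1
      exact hm1
    obtain ⟨k, hk⟩ := h _ hm2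
    refine ⟨k, Subtype.ext ?_⟩
    show F u ^ (k + 1) = F u ^ k
    rw [hu, Prod.pow_mk, Prod.pow_mk, hk, hm2]
    simp
  have hNL : ∀ X ∈ NL ρ f', Ht 1 X := by
    rintro _ ⟨q, rfl⟩
    have e : {w : List A | ρ (w.map f').prod = q} = {w | (w.map g).prod = q} := by
      ext w
      show ((w.map f').prod : M × G).2 = q ↔ _
      rw [hf']
      exact Iff.rfl
    rw [e]
    exact hG g q
  have e : {w : List A | (w.map f).prod ∈ T} =
      ⋃ m : M', {w | m.1.1 ∈ T ∧ w ∈ {w : List A | (w.map f').prod = m}} := by
    ext w
    rw [Set.mem_iUnion]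
    constructor
    · intro hw
      refine ⟨(w.map f').prod, ?_, rfl⟩
      rw [hf']; exact hw
    · rintro ⟨m, h1, h2⟩
      have h2' : (w.map f').prod = m := h2
      rw [← h2', hf'] at h1
      exact h1
  rw [e]
  exact Ht.iUnion fun m => Ht.prop _ (Cl.ht hNL (rel ρ hap f' m))

/-! ### relations -/

/-- binary relations as a monoid -/
def RelM (X : Type) : Type := X → X → Prop

instance (X : Type) : Monoid (RelM X) where
  mul r s := fun x y => ∃ z, r x z ∧ s z y
  one := fun x y => x = y
  mul_assoc r s t := by
    funext x y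
    apply propext
    constructor
    · rintro ⟨z, ⟨v, h1, h2⟩, h3⟩
      exact ⟨v, h1, z, h2, h3⟩
    · rintro ⟨v, h1, z, h2, h3⟩
      exact ⟨z, ⟨v, h1, h2⟩, h3⟩
  one_mul r := by
    funext x y
    apply propext
    constructor
    · rintro ⟨z, h1, h2⟩
      have h1' : x = z := h1
      rw [h1']; exact h2
    · intro h
      exact ⟨x, rfl, h⟩
  mul_one r := by
    funext x y
    apply propext
    constructor
    · rintro ⟨z, h1, h2⟩
      have h2' : z = y := h2
      rw [← h2']; exact h1
    · intro h
      exact ⟨y, h, rfl⟩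

theorem RelM.mul_iff {X : Type} (r s : RelM X) (x y : X) :
    (r * s) x y ↔ ∃ z, r x z ∧ s z y := Iff.rfl

theorem RelM.one_iff {X : Type} (x y : X) : (1 : RelM X) x y ↔ x = y := Iff.rfl

instance {X : Type} [Finite X] : Finite (RelM X) := by
  unfold RelM; infer_instance

/-- a relation as an element of the monoid -/
def toR {X : Type} (r : X → X → Prop) : RelM X := r

/-- paths of an automaton -/
def Run {A Q : Type} (step : A → Q → Q → Prop) : List A → Q → Q → Prop
  | [], p, q => p = q
  | a :: w, p, q => ∃ z, step a p z ∧ Run step w z q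

theorem run_eq {A Q : Type} (step : A → Q → Q → Prop) (w : List A) :
    toR (Run step w) = (w.map (fun a => toR (step a))).prod := by
  induction w with
  | nil => rfl
  | cons a w ih =>
    rw [List.map_cons, List.prod_cons, ← ih]
    rfl

theorem run_append {A Q : Type} (step : A → Q → Q → Prop) (u v : List A) (p q : Q) :
    Run step (u ++ v) p q ↔ ∃ z, Run step u p z ∧ Run step v z q := by
  induction u generalizing p with
  | nil =>
    constructor
    · intro h; exact ⟨p, rfl, h⟩
    · rintro ⟨z, h1, h2⟩
      have h1' : p = z := h1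
      rw [h1']; exact h2
  | cons a u ih =>
    constructor
    · rintro ⟨z, h1, h2⟩
      obtain ⟨z', h3, h4⟩ := (ih z).1 h2
      exact ⟨z', ⟨z, h1, h3⟩, h4⟩
    · rintro ⟨z', ⟨z, h1, h3⟩, h4⟩
      exact ⟨z, h1, (ih z).2 ⟨z', h3, h4⟩⟩

/-- rectangular relations -/
def Rect {X : Type} (r : X → X → Prop) : Prop :=
  ∃ D S : Set X, ∀ x y, r x y ↔ x ∈ D ∧ y ∈ S

theorem Rect.mul_right {X : Type} {r : RelM X} (hr : Rect r) (s : RelM X) : Rect (r * s) := by
  obtain ⟨D, S, h⟩ := hr
  refine ⟨D, {y | ∃ z ∈ S, s z y}, fun x y => ?_⟩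
  rw [RelM.mul_iff]
  constructor
  · rintro ⟨z, h1, h2⟩
    exact ⟨((h x z).1 h1).1, z, ((h x z).1 h1).2, h2⟩
  · rintro ⟨h1, z, h2, h3⟩
    exact ⟨z, (h x z).2 ⟨h1, h2⟩, h3⟩

theorem Rect.mul_left {X : Type} {r : RelM X} (hr : Rect r) (s : RelM X) : Rect (s * r) := by
  obtain ⟨D, S, h⟩ := hr
  refine ⟨{x | ∃ z ∈ D, s x z}, S, fun x y => ?_⟩
  rw [RelM.mul_iff]
  constructor
  · rintro ⟨z, h1, h2⟩
    exact ⟨⟨z, ((h z y).1 h2).1, h1⟩, ((h z y).1 h2).2⟩
  · rintro ⟨⟨z, h1, h2⟩, h3⟩
    exact ⟨z, h2, (h z y).2 ⟨h1, h3⟩⟩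

theorem Rect.aper {X : Type} {r : RelM X} (hr : Rect r) : r ^ (2 + 1) = r ^ 2 := by
  obtain ⟨D, S, h⟩ := hr
  rw [pow_succ r 2, pow_two]
  funext x y
  apply propext
  rw [RelM.mul_iff, RelM.mul_iff]
  constructor
  · rintro ⟨z, ⟨v, h1, h2⟩, h3⟩
    exact ⟨v, h1, (h v y).2 ⟨((h v z).1 h2).1, ((h z y).1 h3).2⟩⟩
  · rintro ⟨v, h1, h2⟩
    refine ⟨v, ⟨v, h1, (h v v).2 ⟨((h v y).1 h2).1, ((h x v).1 h1).2⟩⟩, h2⟩

theorem sub_one_aper {X : Type} {r : RelM X} (hr : ∀ x y, r x y → y = x) :
    r ^ (2 + 1) = r ^ 2 := by
  have h2 : r * r = r := by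
    funext x y
    apply propext
    rw [RelM.mul_iff]
    constructor
    · rintro ⟨z, h1, h2⟩
      rw [hr x z h1] at h2
      exact h2
    · intro h
      have := hr x y h
      subst this
      exact ⟨y, h, h⟩
  rw [pow_succ r 2, pow_two, h2, h2]

/-- one level: the letters act as restrictions of permutations from a group with low languages,
or as rectangles -/
theorem level {A X : Type} [Finite A] [Finite X] {G : Type} [Group G] [Finite G]
    (hG : Low A G) (φ : G →* Equiv.Perm X) (r : A → X → X → Prop)
    (hr : ∀ a, (∃ γ : G, ∀ x y, r a x y → φ γ x = y) ∨ Rect (r a)) (x y : X) :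
    Ht 1 {w : List A | Run r w x y} := by
  classical
  have hch : ∀ a, ∃ γ : G, (∀ x y, r a x y → φ γ y = x) ∨ Rect (r a) := by
    intro a
    rcases hr a with ⟨γ, hγ⟩ | h
    · refine ⟨γ⁻¹, Or.inl fun x y hxy => ?_⟩
      rw [← hγ x y hxy, map_inv]
      simp
    · exact ⟨1, Or.inr h⟩
  choose g hg using hch
  have inv : ∀ u : List A, (∀ x y, Run r u x y → φ (u.map g).prod y = x) ∨ Rect (Run r u) := by
    intro u
    induction u with
    | nil =>
      left
      intro x y h
      have h' : x = y := h
      simp [h']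
    | cons a u ih =>
      have e : Run r (a :: u) = toR (r a) * toR (Run r u) := rfl
      rcases hg a with ha | ha
      · rcases ih with hu | hu
        · left
          rintro x y ⟨z, h1, h2⟩
          rw [List.map_cons, List.prod_cons, map_mul, Equiv.Perm.mul_apply, hu z y h2, ha x z h1]
        · right
          rw [e]; exact Rect.mul_left (r := toR (Run r u)) hu _
      · right
        rw [e]; exact Rect.mul_right (r := toR (r a)) ha _
  have h1 := low_malcev hG (fun a => toR (r a)) g (by
    intro u hu
    refine ⟨2, ?_⟩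
    rw [← run_eq]
    rcases inv u with h | h
    · apply sub_one_aper
      intro x y hxy
      have := h x y hxy
      rw [hu, map_one] at this
      exact this
    · exact Rect.aper (r := toR (Run r u)) h) {s | s x y}
  have e : {w : List A | Run r w x y} =
      {w : List A | (w.map (fun a => toR (r a))).prod ∈ {s : RelM X | s x y}} := by
    ext w
    show Run r w x y ↔ (w.map (fun a => toR (r a))).prod x y
    rw [← run_eq]
    exact Iff.rfl
  rw [e]
  exact h1

end Pool.Agent.GSH42
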