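import Pool.Agent.GSH42.Aut

/-!
# Automata with small strong components, II: levels
-/

set_option autoImplicit false

namespace Pool.Agent.GSH42

open Pool.Agent.GSH

theorem ht_prop {A : Type} {n : ℕ} (p : Prop) {S : Set (List A)} (h : p → Ht n S) :
    Ht n {w | p ∧ w ∈ S} := by
  by_cases hp : p
  · simpa [hp] using h hp
  · simpa [hp] using Ht.empty n

section levels

variable {A Q : Type} (step : A → Q → Q → Prop) (lvl : Q → ℕ)

/-- the transitions inside one level -/
def lstep (i : ℕ) : A → Q → Q → Prop := fun a x y => step a x y ∧ lvl x = i ∧ lvl y = i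

theorem run_of_lstep (i : ℕ) (w : List A) (x y : Q) (h : Run (lstep step lvl i) w x y) :
    Run step w x y := by
  induction w generalizing x with
  | nil => exact h
  | cons a w ih =>
    obtain ⟨z, h1, h2⟩ := h
    exact ⟨z, h1.1, ih z h2⟩

variable {step lvl}

theorem lvl_le (hmono : ∀ a p q, step a p q → lvl p ≤ lvl q) (w : List A) (p q : Q)
    (h : Run step w p q) : lvl p ≤ lvl q := by
  induction w generalizing p with
  | nil =>
    have h' : p = q := h
    rw [h']
  | cons a w ih =>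
    obtain ⟨z, h1, h2⟩ := h
    exact (hmono a p z h1).trans (ih z h2)

theorem run_split (hmono : ∀ a p q, step a p q → lvl p ≤ lvl q) (w : List A) (p q : Q) :
    Run step w p q ↔ Run (lstep step lvl (lvl p)) w p q ∨ ∃ (u : List A) (p' : Q) (a : A)
      (q' : Q) (v : List A), w = u ++ a :: v ∧ Run (lstep step lvl (lvl p)) u p p' ∧
        step a p' q' ∧ lvl p' = lvl p ∧ lvl p < lvl q' ∧ Run step v q' q := by
  constructor
  · intro h
    induction w generalizing p with
    | nil => exact Or.inl h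
    | cons a w ih =>
      obtain ⟨z, h1, h2⟩ := h
      rcases (hmono a p z h1).lt_or_eq with hlt | heq
      · exact Or.inr ⟨[], p, a, z, w, rfl, rfl, h1, rfl, hlt, h2⟩
      · rcases ih z h2 with h3 | ⟨u, p', b, q', v, rfl, h4, h5, h6, h7, h8⟩
        · left
          rw [← heq] at h3
          exact ⟨z, ⟨h1, rfl, heq.symm⟩, h3⟩
        · right
          rw [← heq] at h4 h6 h7
          exact ⟨a :: u, p', b, q', v, rfl, ⟨z, ⟨h1, rfl, heq.symm⟩, h4⟩, h5, h6, h7, h8⟩
  · rintro (h | ⟨u, p', a, q', v, rfl, h4, h5, h6, h7, h8⟩)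
    · exact run_of_lstep step lvl _ _ _ _ h
    · rw [run_append]
      exact ⟨p', run_of_lstep step lvl _ _ _ _ h4, q', h5, h8⟩

theorem levels [Finite A] [Finite Q] (hmono : ∀ a p q, step a p q → lvl p ≤ lvl q)
    (hlev : ∀ i x y, Ht 1 {w : List A | Run (lstep step lvl i) w x y}) :
    ∀ (n : ℕ) (p q : Q), lvl q < lvl p + n → Ht 1 {w : List A | Run step w p q} := by
  intro n
  induction n with
  | zero =>
    intro p q h
    have : {w : List A | Run step w p q} = ∅ := by
      ext w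
      simp only [Set.mem_ofPred_eq, Set.mem_empty_iff_false, iff_false]
      intro hw
      have := lvl_le hmono w p q hw
      omega
    rw [this]; exact Ht.empty 1
  | succ n ih =>
    intro p q h
    have hU : Ht 1 ({w : List A | Run (lstep step lvl (lvl p)) w p q} ∪
        ⋃ t : Q × A × Q, {w | (step t.2.1 t.1 t.2.2 ∧ lvl t.1 = lvl p ∧ lvl p < lvl t.2.2) ∧
          w ∈ GSH.cat {w : List A | Run (lstep step lvl (lvl p)) w p t.1}
            (GSH.cat {[t.2.1]} {w : List A | Run step w t.2.2 q})}) := by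
      refine (hlev _ _ _).union (Ht.iUnion fun t => ht_prop _ fun ht => ?_)
      refine (hlev _ _ _).cat ((Ht.letter 1 _).cat (ih _ _ ?_))
      have := ht.2.2
      omega
    convert hU using 1
    ext w
    rw [Set.mem_union, Set.mem_iUnion]
    show Run step w p q ↔ _
    rw [run_split hmono]
    constructor
    · rintro (h | ⟨u, p', a, q', v, rfl, h4, h5, h6, h7, h8⟩)
      · exact Or.inl h
      · exact Or.inr ⟨(p', a, q'), ⟨h5, h6, h7⟩, u, h4, a :: v, ⟨[a], rfl, v, h8, rfl⟩, rfl⟩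
    · rintro (h | ⟨⟨p', a, q'⟩, ⟨h5, h6, h7⟩, u, h4, _, ⟨_, rfl, v, h8, rfl⟩, rfl⟩)
      · exact Or.inl h
      · exact Or.inr ⟨u, p', a, q', v, rfl, h4, h5, h6, h7, h8⟩

end levels

/-- a partial injection of a finite set extends to a permutation -/
theorem exists_perm {X : Type} [Finite X] (R : X → X → Prop)
    (h : ∀ x y x' y', R x y → R x' y' → (x = x' ↔ y = y')) :
    ∃ π : Equiv.Perm X, ∀ x y, R x y → π x = y := by
  classical
  let e : {x // ∃ y, R x y} ≃ {y // ∃ x, R x y} := Equiv.ofBijective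
    (fun x => ⟨x.2.choose, ⟨x.1, x.2.choose_spec⟩⟩) (by
      constructor
      · intro x x' hxx
        have hxx' : x.2.choose = x'.2.choose := congrArg Subtype.val hxx
        exact Subtype.ext ((h _ _ _ _ x.2.choose_spec x'.2.choose_spec).2 hxx')
      · rintro ⟨y, x, hxy⟩
        refine ⟨⟨x, y, hxy⟩, Subtype.ext ?_⟩
        have hex : ∃ y, R x y := ⟨y, hxy⟩
        exact (h _ _ _ _ hex.choose_spec hxy).1 rfl)
  refine ⟨e.extendSubtype, fun x y hxy => ?_⟩
  have hex : ∃ y, R x y := ⟨y, hxy⟩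
  rw [Equiv.extendSubtype_apply_of_mem e x hex]
  show hex.choose = y
  exact (h _ _ _ _ hex.choose_spec hxy).1 rfl

theorem low_small {A : Type} [Finite A] {X : Type} [Finite X] (hX : Nat.card X ≤ 4) :
    Low A (Equiv.Perm X) := by
  classical
  let _ := Fintype.ofFinite X
  obtain ⟨ι⟩ : Nonempty (X ↪ Fin 4) := by
    apply Function.Embedding.nonempty_of_card_le
    rw [← Nat.card_eq_fintype_card]
    simpa using hX
  exact low_of_injective (Equiv.Perm.viaEmbeddingHom ι)
    (Equiv.Perm.viaEmbeddingHom_injective ι) low_S4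

/-- the letter acts on `C` as a partial injection -/
def PInjOn {Q : Type} (R : Q → Q → Prop) (C : Set Q) : Prop :=
  ∀ x ∈ C, ∀ y ∈ C, ∀ x' ∈ C, ∀ y' ∈ C, R x y → R x' y' → (x = x' ↔ y = y')

/-- the letter acts on `C` as a rectangle `D × S` -/
def RectOn {Q : Type} (R : Q → Q → Prop) (C : Set Q) : Prop :=
  ∃ D S : Set Q, ∀ x ∈ C, ∀ y ∈ C, (R x y ↔ x ∈ D ∧ y ∈ S)

/-- the letter acts on `C` as a restriction of a permutation from `H` -/
def RestrOn {Q : Type} (R : Q → Q → Prop) (C : Set Q) (H : Subgroup (Equiv.Perm Q)) : Prop :=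
  ∃ π ∈ H, ∀ x ∈ C, ∀ y ∈ C, R x y → π x = y

theorem rect_lstep {A Q : Type} {step : A → Q → Q → Prop} {lvl : Q → ℕ} {i : ℕ} {a : A}
    (h : RectOn (step a) {q | lvl q = i}) : Rect (lstep step lvl i a) := by
  obtain ⟨D, S, h⟩ := h
  refine ⟨D ∩ {q | lvl q = i}, S ∩ {q | lvl q = i}, fun x y => ?_⟩
  constructor
  · rintro ⟨h1, h2, h3⟩
    have := (h x h2 y h3).1 h1
    exact ⟨⟨this.1, h2⟩, this.2, h3⟩
  · rintro ⟨⟨h1, h2⟩, h3, h4⟩
    exact ⟨(h x h2 y h4).2 ⟨h1, h3⟩, h2, h4⟩

theorem automaton {A Q : Type} [Finite A] [Finite Q] (step : A → Q → Q → Prop) (lvl : Q → ℕ)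
    (hmono : ∀ a p q, step a p q → lvl p ≤ lvl q)
    (hlev : ∀ i, ({q | lvl q = i}.ncard ≤ 4 ∧
        ∀ a, PInjOn (step a) {q | lvl q = i} ∨ RectOn (step a) {q | lvl q = i}) ∨
      ∃ H : Subgroup (Equiv.Perm Q), Group.IsNilpotent H ∧
        ∀ a, RestrOn (step a) {q | lvl q = i} H ∨ RectOn (step a) {q | lvl q = i})
    (I F : Set Q) : Ht 1 {w : List A | ∃ p ∈ I, ∃ q ∈ F, Run step w p q} := by
  classical
  have h1 : ∀ i x y, Ht 1 {w : List A | Run (lstep step lvl i) w x y} := by
    intro i x y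
    rcases hlev i with ⟨hC, ha⟩ | ⟨H, hH, ha⟩
    · let X := {q : Q // lvl q = i}
      have hX : Nat.card X ≤ 4 := by
        have : ({q | lvl q = i} : Set Q).ncard = Nat.card X := rfl
        rw [← this]; exact hC
      refine level (low_small (A := A) hX) (Equiv.Perm.ofSubtype (p := fun q => lvl q = i))
        (lstep step lvl i) ?_ x y
      intro a
      rcases ha a with h | h
      · left
        obtain ⟨π, hπ⟩ := exists_perm (X := X) (fun x y => step a x.1 y.1)
          (fun x y x' y' hxy hxy' => by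
            rw [Subtype.ext_iff, Subtype.ext_iff]
            exact h x.1 x.2 y.1 y.2 x'.1 x'.2 y'.1 y'.2 hxy hxy')
        refine ⟨π, fun x y hxy => ?_⟩
        obtain ⟨h2, h3, h4⟩ := hxy
        rw [Equiv.Perm.ofSubtype_apply_of_mem π h3]
        exact congrArg Subtype.val (hπ ⟨x, h3⟩ ⟨y, h4⟩ h2)
      · exact Or.inr (rect_lstep h)
    · have := hH
      refine level (low_nil (A := A) (G := H)) H.subtype (lstep step lvl i) ?_ x y
      intro a
      rcases ha a with ⟨π, hπ, h⟩ | h
      · exact Or.inl ⟨⟨π, hπ⟩, fun x y hxy => h x hxy.2.1 y hxy.2.2 hxy.1⟩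
      · exact Or.inr (rect_lstep h)
  have h2 : ∀ p q, Ht 1 {w : List A | Run step w p q} := fun p q =>
    levels hmono h1 (lvl q + 1) p q (by omega)
  have e : {w : List A | ∃ p ∈ I, ∃ q ∈ F, Run step w p q} =
      ⋃ t : Q × Q, {w | (t.1 ∈ I ∧ t.2 ∈ F) ∧ w ∈ {w : List A | Run step w t.1 t.2}} := by
    ext w
    rw [Set.mem_iUnion]
    constructor
    · rintro ⟨p, hp, q, hq, h⟩
      exact ⟨(p, q), ⟨hp, hq⟩, h⟩
    · rintro ⟨⟨p, q⟩, ⟨hp, hq⟩, h⟩
      exact ⟨p, hp, q, hq, h⟩
  rw [e]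
  exact Ht.iUnion fun t => Ht.prop _ (h2 _ _)

/-- the general statement -/
theorem general {A M : Type} [Finite A] [Monoid M] [Finite M] {ι : Type} [Finite ι]
    (G : ι → Type) [∀ i, Group (G i)] [∀ i, Finite (G i)]
    (hG : ∀ i, Group.IsNilpotent (G i) ∨
      ∃ φ : G i →* Equiv.Perm (Fin 4), Function.Injective φ)
    (f : A → M) (g : ∀ i, A → G i)
    (h : ∀ u : List A, (∀ i, (u.map (g i)).prod = 1) →
      ∃ k : ℕ, (u.map f).prod ^ (k + 1) = (u.map f).prod ^ k) (T : Set M) :
    Ht 1 {w : List A | (w.map f).prod ∈ T} := by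
  have hlow : ∀ i, Low A (G i) := by
    intro i
    rcases hG i with h | ⟨φ, hφ⟩
    · have := h
      exact low_nil
    · exact low_of_injective φ hφ low_S4
  refine low_malcev (low_pi hlow) f (fun a i => g i a) ?_ T
  intro u hu
  refine h u fun i => ?_
  have key : (u.map (fun a i => g i a)).prod i = (u.map (g i)).prod := by
    clear hu
    induction u with
    | nil => simp
    | cons a w ih => rw [List.map_cons, List.prod_cons, List.map_cons, List.prod_cons, ← ih]; rfl
  rw [← key, hu]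
  rfl

end Pool.Agent.GSH42
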