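import Pool.Agent.GSH.SF

/-!
# A relative form of Schützenberger's theorem

If `ρ : M → N` is a homomorphism of monoids, `M` finite, such that the elements with idempotent
image are aperiodic, then every language recognised by `M` is in the closure of the languages
recognised by `N` under Boolean operations and concatenation (together with the letters).
The proof follows the method of local divisors (Diekert and Kufleitner).
-/

set_option autoImplicit false

namespace Pool.Agent.GSH42

open Pool.Agent.GSH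

/-- closure of a family of languages (and the letters) under Boolean operations and
concatenation -/
inductive Cl {A : Type} (S : Set (Set (List A))) : Set (List A) → Prop
  | basic {X : Set (List A)} : X ∈ S → Cl S X
  | empty : Cl S ∅
  | one : Cl S {[]}
  | letter (a : A) : Cl S {[a]}
  | compl {K : Set (List A)} : Cl S K → Cl S Kᶜ
  | union {K L : Set (List A)} : Cl S K → Cl S L → Cl S (K ∪ L)
  | inter {K L : Set (List A)} : Cl S K → Cl S L → Cl S (K ∩ L)
  | cat {K L : Set (List A)} : Cl S K → Cl S L → Cl S (GSH.cat K L)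

theorem Cl.ht {A : Type} {S : Set (Set (List A))} {h : ℕ} (hS : ∀ X ∈ S, Ht h X)
    {L : Set (List A)} (hL : Cl S L) : Ht h L := by
  induction hL with
  | basic hX => exact hS _ hX
  | empty => exact Ht.empty _
  | one => exact Ht.one _
  | letter a => exact Ht.letter _ a
  | compl _ ih => exact ih.compl
  | union _ _ ih1 ih2 => exact ih1.union ih2
  | inter _ _ ih1 ih2 => exact ih1.inter ih2
  | cat _ _ ih1 ih2 => exact ih1.cat ih2

/-- star-free languages are in every closure -/
theorem Cl.of_sf {A : Type} {S : Set (Set (List A))} {n : ℕ} {L : Set (List A)} (hL : Ht n L) :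
    n = 0 → Cl S L := by
  induction hL with
  | empty n => exact fun _ => Cl.empty
  | one n => exact fun _ => Cl.one
  | letter n a => exact fun _ => Cl.letter a
  | compl _ ih => exact fun h => (ih h).compl
  | union _ _ ih1 ih2 => exact fun h => (ih1 h).union (ih2 h)
  | inter _ _ ih1 ih2 => exact fun h => (ih1 h).inter (ih2 h)
  | cat _ _ ih1 ih2 => exact fun h => (ih1 h).cat (ih2 h)
  | star _ _ => exact fun h => absurd h (Nat.succ_ne_zero _)

theorem Cl.iUnion {A : Type} {S : Set (Set (List A))} {ι : Type*} [Finite ι]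
    {X : ι → Set (List A)} (h : ∀ i, Cl S (X i)) : Cl S (⋃ i, X i) := by
  classical
  have key : ∀ T : Set ι, T.Finite → Cl S (⋃ i ∈ T, X i) := by
    intro T hT
    induction T, hT using Set.Finite.induction_on with
    | empty => simpa using Cl.empty (S := S)
    | @insert a s _ _ ih =>
      rw [Set.biUnion_insert]
      exact (h a).union ih
  have := key Set.univ Set.finite_univ
  simpa using this

theorem Cl.prop {A : Type} {S : Set (Set (List A))} (p : Prop) {X : Set (List A)}
    (h : Cl S X) : Cl S {w | p ∧ w ∈ X} := by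
  by_cases hp : p
  · simpa [hp] using h
  · simpa [hp] using Cl.empty (S := S)

section Local

variable {M N : Type} [Monoid M] [Monoid N]

/-- the words framed by `c` -/
def Fr (c : M) : Submonoid (LocDiv c) where
  carrier := {x | x = 1 ∨ ∃ m, x.1 = c * m * c}
  mul_mem' := by
    rintro x y (rfl | ⟨m, hm⟩) hy
    · rwa [one_mul]
    · rcases hy with rfl | ⟨m', hm'⟩
      · rw [mul_one]; exact Or.inr ⟨m, hm⟩
      · refine Or.inr ⟨m * c * m', ?_⟩
        rw [LocDiv.mul_val x y hm, hm']
        simp [mul_assoc]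
  one_mem' := Or.inl rfl

theorem Fr.card_lt [Finite M] {c : M} (hc : ¬ IsUnit c) : Nat.card (Fr c) < Nat.card M := by
  have h1 : Nat.card (Fr c) ≤ Nat.card (LocDiv c) :=
    Nat.card_le_card_of_injective (fun x : Fr c => (x : LocDiv c)) Subtype.val_injective
  refine lt_of_le_of_lt h1 ?_
  refine Finite.card_subtype_lt (x := (1 : M)) ?_
  rintro ⟨⟨y, hy⟩, ⟨z, hz⟩⟩
  apply hc
  have hzy : z = y := by
    calc z = z * (c * y) := by rw [← hy, mul_one]
      _ = (z * c) * y := by rw [mul_assoc]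
      _ = y := by rw [← hz, one_mul]
  exact ⟨⟨c, y, hy.symm, by rw [← hzy]; exact hz.symm⟩, rfl⟩

/-- the homomorphism between the local divisors -/
noncomputable def locMap (ρ : M →* N) (c : M) : LocDiv c →* LocDiv (ρ c) where
  toFun x := ⟨ρ x.1, by
    obtain ⟨⟨y, hy⟩, ⟨z, hz⟩⟩ := x.2
    exact ⟨⟨ρ y, by rw [← map_mul, ← hy]⟩, ⟨ρ z, by rw [← map_mul, ← hz]⟩⟩⟩
  map_one' := rfl
  map_mul' x y := by
    obtain ⟨z, hz⟩ := x.2.2
    apply Subtype.ext
    rw [LocDiv.mul_val (c := ρ c) ⟨ρ x.1, _⟩ ⟨ρ y.1, _⟩ (z := ρ z) (by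
      show ρ x.1 = ρ z * ρ c
      rw [← map_mul, ← hz])]
    show ρ (x * y).1 = ρ z * ρ y.1
    rw [LocDiv.mul_val x y hz, map_mul]

theorem locMap_val (ρ : M →* N) (c : M) (x : LocDiv c) : (locMap ρ c x).1 = ρ x.1 := rfl

theorem pow_stable {m : M} {a : ℕ} (h : m ^ (a + 1) = m ^ a) (b : ℕ) (hab : a ≤ b) :
    m ^ (b + 1) = m ^ b := by
  obtain ⟨d, rfl⟩ := Nat.exists_eq_add_of_le hab
  rw [show a + d + 1 = (a + 1) + d by ring, pow_add, h, ← pow_add]

theorem Fr.aper (ρ : M →* N)
    (hap : ∀ m : M, ρ m * ρ m = ρ m → ∃ k, m ^ (k + 1) = m ^ k) (c : M) (x : Fr c)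
    (hx : locMap ρ c x.1 * locMap ρ c x.1 = locMap ρ c x.1) : ∃ k, x ^ (k + 1) = x ^ k := by
  obtain ⟨x, hxm⟩ := x
  rcases hxm with rfl | ⟨m, hm⟩
  · exact ⟨0, by
      apply Subtype.ext
      simp⟩
  · -- x = (c m) c
    set z := c * m with hz
    have hx1 : x.1 = z * c := by rw [hm]
    have h1 : ρ z * ρ x.1 = ρ x.1 := by
      have := congrArg Subtype.val hx
      rw [LocDiv.mul_val (c := ρ c) _ _ (z := ρ z) (by
        rw [locMap_val]; show ρ x.1 = ρ z * ρ c; rw [← map_mul, ← hx1])] at this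
      simpa [locMap_val] using this
    -- ρ z ^ 3 = ρ z ^ 2
    have h2 : ρ z * ρ z * ρ z = ρ z * ρ z := by
      have h3 : ρ z * (ρ x.1 * ρ m) = ρ x.1 * ρ m := by rw [← mul_assoc, h1]
      have h4 : ρ x.1 * ρ m = ρ z * ρ z := by
        rw [hx1, map_mul, mul_assoc, ← map_mul ρ c m, ← hz]
      rw [h4] at h3
      rw [mul_assoc]; exact h3
    have h3 : ∀ j, ρ (z ^ (j + 2)) = ρ z * ρ z := by
      intro j
      induction j with
      | zero => rw [zero_add, pow_two, map_mul]
      | succ j ih => rw [show j + 1 + 2 = (j + 2) + 1 by ring, pow_succ, map_mul, ih, h2]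
    have hidem : ∀ j, ρ (z ^ (j + 2)) * ρ (z ^ (j + 2)) = ρ (z ^ (j + 2)) := by
      intro j
      rw [← map_mul, ← pow_add, show j + 2 + (j + 2) = (j + j + 2) + 2 by ring, h3, h3]
    obtain ⟨a, ha⟩ := hap (z ^ 2) (hidem 0)
    obtain ⟨b, hb⟩ := hap (z ^ 3) (hidem 1)
    rw [← pow_mul, ← pow_mul] at ha hb
    -- z ^ (2a+2) = z ^ (2a), z ^ (3b+3) = z ^ (3b)
    have e2 : ∀ t, 2 * a ≤ t → z ^ (t + 2) = z ^ t := by
      intro t ht
      obtain ⟨d, rfl⟩ := Nat.exists_eq_add_of_le ht
      rw [show 2 * a + d + 2 = 2 * (a + 1) + d by ring, pow_add, ha, ← pow_add]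
    have e3 : ∀ t, 3 * b ≤ t → z ^ (t + 3) = z ^ t := by
      intro t ht
      obtain ⟨d, rfl⟩ := Nat.exists_eq_add_of_le ht
      rw [show 3 * b + d + 3 = 3 * (b + 1) + d by ring, pow_add, hb, ← pow_add]
    have e1 : z ^ (2 * a + 3 * b + 1) = z ^ (2 * a + 3 * b) := by
      have h5 := e3 (2 * a + 3 * b) (by omega)
      have h6 := e2 (2 * a + 3 * b + 1) (by omega)
      rw [← h5, ← h6]
    refine ⟨2 * a + 3 * b, Subtype.ext (Subtype.ext ?_)⟩
    show (x ^ (2 * a + 3 * b + 1)).1 = (x ^ (2 * a + 3 * b)).1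
    rw [LocDiv.pow_val x hx1, LocDiv.pow_val x hx1, e1]

end Local

section Main

variable {A : Type} {M N : Type} [Monoid M] [Monoid N]

/-- the languages recognised through `ρ` -/
def NL (ρ : M →* N) (f : A → M) : Set (Set (List A)) :=
  {X | ∃ q : N, X = {w : List A | ρ (w.map f).prod = q}}

theorem Sig_cl [Finite A] {S : Set (Set (List A))} {S' : Set (Set (List M))} (f : A → M)
    (B : Set A) (c : A) (hc : c ∈ B)
    (hB : ∀ m, Cl S {w : List A | (∀ a ∈ w, a ∈ B ∧ a ≠ c) ∧ (w.map f).prod = m})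
    (hS : ∀ X ∈ S', Cl S (Sig f B c X)) {K : Set (List M)} (hK : Cl S' K) :
    Cl S (Sig f B c K) := by
  have huniv : Cl S (Sig f B c Set.univ) := by
    rw [Sig_univ f B c hc]
    exact Cl.of_sf ((Ht.over 0 B).inter ((Ht.one 0).union ((Ht.univ 0).cat (Ht.letter 0 c)))) rfl
  induction hK with
  | basic hX => exact hS _ hX
  | empty =>
    have : Sig f B c ∅ = ∅ := by
      ext u
      simp [Sig]
    rw [this]; exact Cl.empty
  | one =>
    have : Sig f B c {[]} = {[]} := by
      ext u
      constructor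
      · rintro ⟨ls, h1, h2, h3⟩
        have h4 : ls.map (fun v => (v.map f).prod) = [] := h2
        rw [List.map_eq_nil_iff] at h4
        subst h4
        exact h3.symm
      · rintro rfl
        exact ⟨[], by simp, by simp, rfl⟩
    rw [this]; exact Cl.one
  | letter m =>
    have : Sig f B c {[m]} =
        GSH.cat {w : List A | (∀ a ∈ w, a ∈ B ∧ a ≠ c) ∧ (w.map f).prod = m} {[c]} := by
      ext u
      constructor
      · rintro ⟨ls, h1, h2, h3⟩
        have h4 : ls.map (fun v => (v.map f).prod) = [m] := h2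
        obtain ⟨v, rfl, hv⟩ := List.map_eq_singleton_iff.1 h4
        refine ⟨v, ⟨h1 v (by simp), hv⟩, [c], rfl, ?_⟩
        rw [← h3]; simp [enc]
      · rintro ⟨v, ⟨h1, h2⟩, _, rfl, rfl⟩
        refine ⟨[v], by simpa using h1, ?_, by simp [enc]⟩
        simp [h2]
    rw [this]; exact (hB m).cat (Cl.letter c)
  | compl _ ih =>
    rw [Sig_compl]
    exact huniv.inter ih.compl
  | @union K L _ _ ih1 ih2 =>
    have : Sig f B c (K ∪ L) = Sig f B c K ∪ Sig f B c L := by
      ext u
      constructor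
      · rintro ⟨ls, h1, h2 | h2, h3⟩
        · exact Or.inl ⟨ls, h1, h2, h3⟩
        · exact Or.inr ⟨ls, h1, h2, h3⟩
      · rintro (⟨ls, h1, h2, h3⟩ | ⟨ls, h1, h2, h3⟩)
        · exact ⟨ls, h1, Or.inl h2, h3⟩
        · exact ⟨ls, h1, Or.inr h2, h3⟩
    rw [this]; exact ih1.union ih2
  | @inter K L _ _ ih1 ih2 =>
    have : Sig f B c (K ∩ L) = Sig f B c K ∩ Sig f B c L := by
      ext u
      constructor
      · rintro ⟨ls, h1, h2, h3⟩
        exact ⟨⟨ls, h1, h2.1, h3⟩, ⟨ls, h1, h2.2, h3⟩⟩
      · rintro ⟨h, h'⟩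
        exact Sig_inj f B c h h'
    rw [this]; exact ih1.inter ih2
  | cat _ _ ih1 ih2 =>
    rw [Sig_cat]
    exact ih1.cat ih2

/-- framing as a map into the submonoid -/
def fr (c : M) (m : M) : Fr c := ⟨LocDiv.psi c m, Or.inr ⟨m, rfl⟩⟩

theorem fr_prod (f : A → M) (c : A) (ls : List (List A)) :
    (((ls.map (fun v => (v.map f).prod)).map (fr (f c))).prod).1.1 =
      f c * ((enc c ls).map f).prod := by
  rw [← prod_enc]
  rw [Submonoid.coe_list_prod, List.map_map]
  rfl

theorem unit_case (ρ : M →* N)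
    (hap : ∀ m : M, ρ m * ρ m = ρ m → ∃ k, m ^ (k + 1) = m ^ k) {x y : M} (hx : IsUnit x)
    (hy : IsUnit y) (h : ρ x = ρ y) : x = y := by
  obtain ⟨y, rfl⟩ := hy
  have h1 : ρ (x * (y⁻¹ : Mˣ)) = 1 := by
    rw [map_mul, h, ← map_mul, Units.mul_inv, map_one]
  obtain ⟨k, hk⟩ := hap (x * (y⁻¹ : Mˣ)) (by rw [h1, one_mul])
  have h2 : IsUnit (x * ((y⁻¹ : Mˣ) : M)) := hx.mul (Units.isUnit _)
  have h3 : x * ((y⁻¹ : Mˣ) : M) = 1 := by
    rw [pow_succ] at hk
    exact (h2.pow k).mul_left_cancel (by rw [hk, mul_one])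
  calc x = x * ((y⁻¹ : Mˣ) : M) * y := by rw [mul_assoc, Units.inv_mul, mul_one]
    _ = y := by rw [h3, one_mul]

theorem prod_isUnit (f : A → M) (w : List A) (h : ∀ a ∈ w, IsUnit (f a)) :
    IsUnit (w.map f).prod := by
  induction w with
  | nil => simp
  | cons a w ih =>
    rw [List.map_cons, List.prod_cons]
    exact (h a (by simp)).mul (ih (fun b hb => h b (by simp [hb])))

end Main

/-- relative form of Schützenberger's theorem, with a bound on the letters -/
theorem rel_aux : ∀ (n : ℕ) (M : Type) [Monoid M] [Finite M], Nat.card M = n →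
    ∀ (N : Type) [Monoid N] (ρ : M →* N),
    (∀ m : M, ρ m * ρ m = ρ m → ∃ k, m ^ (k + 1) = m ^ k) →
    ∀ (A : Type) [Finite A] (f : A → M) (k : ℕ) (B : Finset A), B.card = k →
      ∀ m : M, Cl (NL ρ f) {w : List A | (∀ a ∈ w, a ∈ (B : Set A)) ∧ (w.map f).prod = m} := by
  intro n
  induction n using Nat.strong_induction_on with
  | _ n ihn =>
  intro M _ _ hM N _ ρ hap A _ f k
  induction k using Nat.strong_induction_on with
  | _ k ihk =>
  intro B hBk m
  classical
  by_cases hall : ∀ a ∈ B, IsUnit (f a)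
  · by_cases hm : ∃ w : List A, (∀ a ∈ w, a ∈ (B : Set A)) ∧ (w.map f).prod = m
    · obtain ⟨w0, hw0, rfl⟩ := hm
      have hu : ∀ w : List A, (∀ a ∈ w, a ∈ (B : Set A)) → IsUnit (w.map f).prod :=
        fun w hw => prod_isUnit f w (fun a ha => hall a (by simpa using hw a ha))
      have h2 : {w : List A | (∀ a ∈ w, a ∈ (B : Set A)) ∧ (w.map f).prod = (w0.map f).prod} =
          {w : List A | ∀ a ∈ w, a ∈ (B : Set A)} ∩
            {w : List A | ρ (w.map f).prod = ρ (w0.map f).prod} := by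
        ext w
        constructor
        · rintro ⟨h3, h4⟩
          exact ⟨h3, congrArg ρ h4⟩
        · rintro ⟨h3, h4⟩
          exact ⟨h3, unit_case ρ hap (hu w h3) (hu w0 hw0) h4⟩
      rw [h2]
      exact (Cl.of_sf (Ht.over 0 _) rfl).inter (Cl.basic ⟨_, rfl⟩)
    · have h2 : {w : List A | (∀ a ∈ w, a ∈ (B : Set A)) ∧ (w.map f).prod = m} = ∅ := by
        ext w
        simp only [Set.mem_ofPred_eq, Set.mem_empty_iff_false, iff_false]
        exact fun h => hm ⟨w, h⟩
      rw [h2]; exact Cl.empty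
  · push Not at hall
    obtain ⟨c, hcB, hc⟩ := hall
    -- words over B \ {c}
    have hB' : ∀ m, Cl (NL ρ f) {w : List A | (∀ a ∈ w, a ∈ (B : Set A) ∧ a ≠ c) ∧
        (w.map f).prod = m} := by
      intro m
      have := ihk (B.erase c).card (by
        rw [← hBk]; exact Finset.card_erase_lt_of_mem hcB) (B.erase c) rfl m
      convert this using 6
      simp [and_comm]
    let ρ' : Fr (f c) →* LocDiv (ρ (f c)) := (locMap ρ (f c)).comp (Fr (f c)).subtype
    have hap' : ∀ x : Fr (f c), ρ' x * ρ' x = ρ' x → ∃ k, x ^ (k + 1) = x ^ k :=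
      fun x hx => Fr.aper ρ hap (f c) x hx
    have hbas : ∀ X ∈ NL ρ' (fr (f c)), Cl (NL ρ f) (Sig f (B : Set A) c X) := by
      rintro _ ⟨q, rfl⟩
      have hX : Sig f (B : Set A) c {l : List M | ρ' (l.map (fr (f c))).prod = q} =
          Sig f (B : Set A) c Set.univ ∩
            ⋃ m : M, {u : List A | (ρ (f c) * ρ m = q.1) ∧
              u ∈ {u : List A | ρ (u.map f).prod = ρ m}} := by
        ext u
        constructor
        · rintro ⟨ls, h1, h2, rfl⟩
          refine ⟨⟨ls, h1, trivial, rfl⟩, ?_⟩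
          rw [Set.mem_iUnion]
          refine ⟨((enc c ls).map f).prod, ?_, rfl⟩
          have h3 : ρ' ((ls.map (fun v => (v.map f).prod)).map (fr (f c))).prod = q := h2
          rw [← h3, ← map_mul, ← fr_prod]
          rfl
        · rintro ⟨⟨ls, h1, _, rfl⟩, h2⟩
          rw [Set.mem_iUnion] at h2
          obtain ⟨m, h3, h4⟩ := h2
          refine ⟨ls, h1, ?_, rfl⟩
          have h5 : ρ ((enc c ls).map f).prod = ρ m := h4
          show ρ' ((ls.map (fun v => (v.map f).prod)).map (fr (f c))).prod = q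
          apply Subtype.ext
          rw [← h3, ← h5, ← map_mul, ← fr_prod]
          rfl
      rw [hX]
      refine (Cl.of_sf ?_ rfl).inter (Cl.iUnion fun m => Cl.prop _ (Cl.basic ⟨_, rfl⟩))
      rw [Sig_univ f (B : Set A) c (by simpa using hcB)]
      exact (Ht.over 0 _).inter ((Ht.one 0).union ((Ht.univ 0).cat (Ht.letter 0 c)))
    have hloc : ∀ q : Fr (f c), Cl (NL ρ f) (Sig f (B : Set A) c
        {l : List M | (l.map (fr (f c))).prod = q}) := by
      intro q
      refine Sig_cl (S' := NL ρ' (fr (f c))) f (B : Set A) c (by simpa using hcB) hB' hbas ?_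
      let _ := Fintype.ofFinite M
      have := ihn (Nat.card (Fr (f c))) (by rw [← hM]; exact Fr.card_lt hc)
        (Fr (f c)) rfl (LocDiv (ρ (f c))) ρ' hap' M (fr (f c)) _ Finset.univ rfl q
      simpa using this
    let L : M → Set (List A) := fun m =>
      {w : List A | (∀ a ∈ w, a ∈ (B : Set A) ∧ a ≠ c) ∧ (w.map f).prod = m}
    let P : Fr (f c) → Set (List A) := fun q =>
      Sig f (B : Set A) c {l : List M | (l.map (fr (f c))).prod = q}
    have hU : Cl (NL ρ f) (L m ∪ ⋃ t : M × Fr (f c) × M,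
        {w | t.1 * t.2.1.1.1 * t.2.2 = m ∧
          w ∈ GSH.cat (L t.1) (GSH.cat (GSH.cat {[c]} (P t.2.1)) (L t.2.2))}) := by
      refine (hB' m).union (Cl.iUnion fun t => Cl.prop _ ?_)
      exact (hB' _).cat (((Cl.letter c).cat (hloc _)).cat (hB' _))
    convert hU using 1
    ext w
    constructor
    · rintro ⟨h1, h2⟩
      obtain ⟨ls, v, h3, h4, rfl⟩ := enc_exists (B : Set A) c w h1
      cases ls with
      | nil =>
        left
        refine ⟨?_, h2⟩
        simpa [enc] using h4
      | cons x ls =>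
        right
        rw [Set.mem_iUnion]
        let q : Fr (f c) := ((ls.map (fun v => (v.map f).prod)).map (fr (f c))).prod
        have hq : q.1.1 = f c * ((enc c ls).map f).prod := fr_prod f c ls
        refine ⟨((x.map f).prod, q, (v.map f).prod), ?_, ?_⟩
        · show (x.map f).prod * q.1.1 * (v.map f).prod = m
          rw [hq, ← h2, enc_cons]
          simp [mul_assoc]
        · refine ⟨x, ⟨h3 x (by simp), rfl⟩, c :: enc c ls ++ v, ⟨c :: enc c ls,
            ⟨[c], rfl, enc c ls, ⟨ls, fun y hy => h3 y (by simp [hy]), rfl, rfl⟩, rfl⟩,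
            v, ⟨h4, rfl⟩, rfl⟩, ?_⟩
          rw [enc_cons]; simp
    · rintro (⟨h1, h2⟩ | h)
      · exact ⟨fun a ha => (h1 a ha).1, h2⟩
      · rw [Set.mem_iUnion] at h
        obtain ⟨⟨p1, q, p3⟩, h1, x, ⟨hx1, hx2⟩, _, ⟨_, ⟨_, rfl, _, ⟨ls, h3, h4, rfl⟩, rfl⟩,
          v, ⟨hv1, hv2⟩, rfl⟩, rfl⟩ := h
        have h1' : p1 * q.1.1 * p3 = m := h1
        have hx2' : (x.map f).prod = p1 := hx2
        have hv2' : (v.map f).prod = p3 := hv2
        have h4' : ((ls.map (fun v => (v.map f).prod)).map (fr (f c))).prod = q := h4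
        constructor
        · intro a ha
          simp only [enc, List.mem_append, List.mem_singleton, List.mem_flatten,
            List.mem_map] at ha
          rcases ha with ha | (ha | ⟨_, ⟨y, hy, rfl⟩, ha⟩) | ha
          · exact (hx1 a ha).1
          · rw [ha]; simpa using hcB
          · rcases List.mem_append.1 ha with ha | ha
            · exact (h3 y hy a ha).1
            · rw [List.mem_singleton.1 ha]; simpa using hcB
          · exact (hv1 a ha).1
        · have hq := fr_prod f c ls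
          rw [h4'] at hq
          rw [← h1', ← hx2', ← hv2', hq]
          simp [mul_assoc]

/-- Relative form of Schützenberger's theorem. -/
theorem rel {M N : Type} [Monoid M] [Finite M] [Monoid N] (ρ : M →* N)
    (hap : ∀ m : M, ρ m * ρ m = ρ m → ∃ k, m ^ (k + 1) = m ^ k)
    {A : Type} [Finite A] (f : A → M) (m : M) :
    Cl (NL ρ f) {w : List A | (w.map f).prod = m} := by
  classical
  let _ := Fintype.ofFinite A
  have := rel_aux _ M rfl N ρ hap A f _ Finset.univ rfl m
  simpa using this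

end Pool.Agent.GSH42
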